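import Mathlib

/-!
# Data of the counterexample and its certificates

`Q` is the Cartan matrix of `D₄`; the group `{M | Mᵀ Q M = Q}` is the Weyl group of `F₄`.
-/

namespace Pool.Agent.MP_123198_al

open Matrix

/-- The Cartan matrix of `D₄`. -/
def Q : Matrix (Fin 4) (Fin 4) ℤ := !![2, -1, 0, 0; -1, 2, -1, -1; 0, -1, 2, 0; 0, -1, 0, 2]

/-- The four matrices `a l`; the symmetric admissible set is `{± vec (a l)}`. -/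
def a : Fin 4 → Matrix (Fin 4) (Fin 5) ℤ := ![
  !![0, 80, 0, 0, 0; -80, 80, 0, 0, 0; -40, 80, 0, 0, 0; 0, 40, 0, 0, 0],
  !![0, 0, 0, 0, 40; 0, 0, 40, 40, -40; 0, 0, -40, 80, -40; 0, 0, 0, -40, -40],
  !![5, -5, 36, -108, 0; 0, -10, 108, -108, 36; -5, 0, 72, -36, 0; -5, -10, 72, -36, -36],
  !![5, -5, -36, 108, 0; 0, -10, -108, 108, -36; -5, 0, -72, 36, 0; -5, -10, -72, 36, 36]]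

/-- Certificates `(i, j, s, N, L)` for `N (a i + s a j) = ∑ n • (f * a l)`. -/
def pairCerts : List (Fin 4 × Fin 4 × ℤ × ℤ × List (ℤ × Matrix (Fin 4) (Fin 4) ℤ × Fin 4)) := [
  (0, 1, -1, 36, [
    (31, !![1, 0, 0, 0; 0, 1, 0, 0; 0, 0, 1, 0; 0, 0, 0, 1], 0),
    (-40, !![0, 0, -1, 1; 0, 1, -2, 0; 0, 1, -1, 0; -1, 1, -1, 0], 3)]),
  (0, 1, 1, 36, [
    (31, !![1, 0, 0, 0; 0, 1, 0, 0; 0, 0, 1, 0; 0, 0, 0, 1], 0),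
    (-40, !![0, 0, -1, 1; 0, 1, -2, 0; 0, 1, -1, 0; -1, 1, -1, 0], 2)]),
  (0, 2, -1, 80, [
    (70, !![1, 0, 0, 0; 0, 1, 0, 0; 0, 0, 1, 0; 0, 0, 0, 1], 0),
    (5, !![0, 0, 1, 0; 0, 1, 0, 0; 0, 0, 0, 1; 1, 0, 0, 0], 0),
    (5, !![1, 0, 0, 0; 1, 0, 1, -1; 1, 0, 0, -1; 1, -1, 1, 0], 0),
    (5, !![0, 0, 1, 0; 1, 0, 1, -1; 1, 0, 0, 0; 1, -1, 1, 0], 0),
    (-72, !![0, 0, -1, 1; 0, 1, -2, 0; 0, 1, -1, 0; -1, 1, -1, 0], 1)]),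
  (0, 2, 1, 80, [
    (70, !![1, 0, 0, 0; 0, 1, 0, 0; 0, 0, 1, 0; 0, 0, 0, 1], 0),
    (-5, !![0, 1, -1, 0; 1, 0, -1, 1; 0, 0, -1, 1; 0, 0, 0, 1], 0),
    (5, !![0, -1, 1, 1; -1, 0, 1, 1; 0, 0, 1, 0; -1, 0, 1, 0], 0),
    (5, !![1, 0, 0, -1; 0, 1, 0, -2; 0, 1, 0, -1; 0, 1, -1, -1], 0),
    (72, !![0, 0, -1, 1; 0, 1, -2, 0; 0, 1, -1, 0; -1, 1, -1, 0], 1)]),
  (0, 3, -1, 80, [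
    (65, !![1, 0, 0, 0; 0, 1, 0, 0; 0, 0, 1, 0; 0, 0, 0, 1], 0),
    (-5, !![-1, 0, 0, 0; -1, 0, -1, 1; 0, 0, -1, 0; -1, 1, -1, 0], 0),
    (5, !![0, 0, 1, 0; 0, 1, 0, 0; 1, 0, 0, 0; 0, 0, 0, 1], 0),
    (5, !![0, 0, 1, 0; 0, 1, 0, 0; 0, 0, 0, 1; 1, 0, 0, 0], 0),
    (5, !![1, 0, 0, 0; 1, 0, 1, -1; 1, 0, 0, -1; 1, -1, 1, 0], 0),
    (72, !![0, 0, -1, 1; 0, 1, -2, 0; 0, 1, -1, 0; -1, 1, -1, 0], 1)]),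
  (0, 3, 1, 80, [
    (70, !![1, 0, 0, 0; 0, 1, 0, 0; 0, 0, 1, 0; 0, 0, 0, 1], 0),
    (-5, !![0, 1, -1, 0; 1, 0, -1, 1; 0, 0, -1, 1; 0, 0, 0, 1], 0),
    (5, !![0, -1, 1, 1; -1, 0, 1, 1; 0, 0, 1, 0; -1, 0, 1, 0], 0),
    (5, !![1, 0, 0, -1; 0, 1, 0, -2; 0, 1, 0, -1; 0, 1, -1, -1], 0),
    (-72, !![0, 0, -1, 1; 0, 1, -2, 0; 0, 1, -1, 0; -1, 1, -1, 0], 1)]),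
  (1, 2, -1, 120, [
    (-15, !![0, 0, -1, 1; 0, 1, -2, 0; 0, 1, -1, 0; -1, 1, -1, 0], 0),
    (-20, !![0, 0, 0, 1; 1, 0, -1, 1; 0, 1, -1, 0; 1, 0, 0, 0], 1),
    (56, !![0, -1, 1, 0; -1, -1, 1, 1; 0, -1, 1, 1; 0, -1, 0, 1], 1),
    (-12, !![0, -1, 0, 1; 1, -1, -1, 1; 0, 0, -1, 1; 0, 0, -1, 0], 1),
    (-20, !![-1, 0, 0, 1; 0, -1, 0, 2; 0, 0, -1, 1; 0, 0, 0, 1], 1),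
    (-24, !![-1, 0, 0, 1; -1, 1, -1, 1; -1, 1, -1, 0; -1, 1, 0, 0], 1),
    (20, !![0, 0, 1, -1; -1, 0, 1, -1; -1, 0, 1, 0; 0, -1, 1, 0], 1),
    (-36, !![0, 0, 0, 1; 1, 0, -1, 1; 0, 0, -1, 1; 0, 1, -1, 0], 1),
    (12, !![0, 0, 1, -1; -1, 0, 1, -1; 0, -1, 1, 0; -1, 0, 1, 0], 1),
    (-24, !![1, -1, 0, 1; 2, -1, 0, 0; 1, 0, -1, 0; 1, 0, 0, 0], 1)]),
  (1, 2, 1, 1044, [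
    (125, !![0, 0, -1, 1; 0, 1, -2, 0; 0, 1, -1, 0; -1, 1, -1, 0], 0),
    (-72, !![1, 0, 0, 0; 2, -1, 0, 0; 1, 0, -1, 0; 1, 0, 0, -1], 1),
    (324, !![0, 0, -1, 0; -1, 1, -1, -1; -1, 0, 0, 0; -1, 1, -1, 0], 1),
    (-252, !![1, -1, 1, 0; 1, -2, 1, 1; 1, -1, 0, 1; 1, -1, 0, 0], 1),
    (36, !![-1, 1, 0, 0; -1, 2, -1, -1; -1, 1, 0, -1; -1, 1, -1, 0], 1),
    (252, !![1, -1, 0, 0; 1, 0, -1, -1; 0, 0, 0, -1; 0, 0, -1, 0], 1),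
    (-432, !![0, 1, 0, -1; 1, 0, 1, -1; 1, 0, 0, 0; 1, 0, 0, -1], 1),
    (-144, !![0, 0, 1, 0; 1, -1, 1, 1; 0, 0, 0, 1; 1, 0, 0, 0], 1),
    (-72, !![-1, 0, 1, 0; 0, -1, 2, 0; 0, 0, 1, 0; 0, 0, 1, -1], 1),
    (180, !![0, 1, -1, -1; -1, 2, -1, -1; -1, 1, 0, -1; -1, 1, -1, 0], 1),
    (144, !![0, 0, -1, 0; 0, 1, -2, 0; -1, 1, -1, 0; 0, 0, -1, 1], 1),
    (44, !![1, 0, 0, 0; 0, 1, 0, 0; 0, 0, 1, 0; 0, 0, 0, 1], 2)]),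
  (1, 3, -1, 1044, [
    (-125, !![0, 0, -1, 1; 0, 1, -2, 0; 0, 1, -1, 0; -1, 1, -1, 0], 0),
    (-72, !![1, 0, 0, 0; 2, -1, 0, 0; 1, 0, -1, 0; 1, 0, 0, -1], 1),
    (324, !![0, 0, -1, 0; -1, 1, -1, -1; -1, 0, 0, 0; -1, 1, -1, 0], 1),
    (-252, !![1, -1, 1, 0; 1, -2, 1, 1; 1, -1, 0, 1; 1, -1, 0, 0], 1),
    (36, !![-1, 1, 0, 0; -1, 2, -1, -1; -1, 1, 0, -1; -1, 1, -1, 0], 1),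
    (252, !![1, -1, 0, 0; 1, 0, -1, -1; 0, 0, 0, -1; 0, 0, -1, 0], 1),
    (-432, !![0, 1, 0, -1; 1, 0, 1, -1; 1, 0, 0, 0; 1, 0, 0, -1], 1),
    (-144, !![0, 0, 1, 0; 1, -1, 1, 1; 0, 0, 0, 1; 1, 0, 0, 0], 1),
    (-72, !![-1, 0, 1, 0; 0, -1, 2, 0; 0, 0, 1, 0; 0, 0, 1, -1], 1),
    (180, !![0, 1, -1, -1; -1, 2, -1, -1; -1, 1, 0, -1; -1, 1, -1, 0], 1),
    (144, !![0, 0, -1, 0; 0, 1, -2, 0; -1, 1, -1, 0; 0, 0, -1, 1], 1),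
    (-44, !![1, 0, 0, 0; 0, 1, 0, 0; 0, 0, 1, 0; 0, 0, 0, 1], 3)]),
  (1, 3, 1, 120, [
    (15, !![0, 0, -1, 1; 0, 1, -2, 0; 0, 1, -1, 0; -1, 1, -1, 0], 0),
    (-20, !![0, 0, 0, 1; 1, 0, -1, 1; 0, 1, -1, 0; 1, 0, 0, 0], 1),
    (56, !![0, -1, 1, 0; -1, -1, 1, 1; 0, -1, 1, 1; 0, -1, 0, 1], 1),
    (-12, !![0, -1, 0, 1; 1, -1, -1, 1; 0, 0, -1, 1; 0, 0, -1, 0], 1),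
    (-20, !![-1, 0, 0, 1; 0, -1, 0, 2; 0, 0, -1, 1; 0, 0, 0, 1], 1),
    (-24, !![-1, 0, 0, 1; -1, 1, -1, 1; -1, 1, -1, 0; -1, 1, 0, 0], 1),
    (20, !![0, 0, 1, -1; -1, 0, 1, -1; -1, 0, 1, 0; 0, -1, 1, 0], 1),
    (-36, !![0, 0, 0, 1; 1, 0, -1, 1; 0, 0, -1, 1; 0, 1, -1, 0], 1),
    (12, !![0, 0, 1, -1; -1, 0, 1, -1; 0, -1, 1, 0; -1, 0, 1, 0], 1),
    (-24, !![1, -1, 0, 1; 2, -1, 0, 0; 1, 0, -1, 0; 1, 0, 0, 0], 1)]),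
  (2, 3, -1, 5, [
    (9, !![0, 0, -1, 1; 0, 1, -2, 0; 0, 1, -1, 0; -1, 1, -1, 0], 1)]),
  (2, 3, 1, 4, [
    (1, !![0, 0, -1, 1; 0, 1, -2, 0; 0, 1, -1, 0; -1, 1, -1, 0], 0)])]

/-- Certificates `(i, j, N, L)` for `N E_ij = ∑ n • (f * a l)`. -/
def basisCerts : List (Fin 4 × Fin 5 × ℤ × List (ℤ × Matrix (Fin 4) (Fin 4) ℤ × Fin 4)) := [
  (0, 0, 80, [
    (1, !![1, 0, 0, 0; 0, 1, 0, 0; 0, 0, 1, 0; 0, 0, 0, 1], 0),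
    (-1, !![1, 0, 0, 0; 0, 1, 0, 0; 0, 0, 1, 0; 0, 1, 0, -1], 0),
    (-1, !![1, 0, 0, 0; 1, -1, 1, 1; 0, 0, 1, 0; 0, 0, 0, 1], 0),
    (1, !![1, 0, 0, 0; 1, 0, 1, -1; 0, 0, 1, 0; 0, 1, 0, -1], 0),
    (-1, !![-1, 1, 0, 0; 0, 1, 0, 0; 0, 0, 1, 0; 0, 0, 0, 1], 0),
    (1, !![-1, 1, 0, 0; 0, 1, 0, 0; 0, 0, 1, 0; 0, 1, 0, -1], 0),
    (1, !![0, -1, 1, 1; 1, -1, 1, 1; 0, 0, 1, 0; 0, 0, 0, 1], 0),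
    (-1, !![0, 0, 1, -1; 1, 0, 1, -1; 0, 0, 1, 0; 0, 1, 0, -1], 0)]),
  (0, 1, 80, [
    (1, !![1, 0, 0, 0; 0, 1, 0, 0; 0, 0, 1, 0; 0, 0, 0, 1], 0),
    (-1, !![1, 0, 0, 0; 0, 1, 0, 0; 0, 1, -1, 0; 0, 0, 0, 1], 0),
    (-1, !![1, 0, 0, 0; 1, -1, 1, 1; 0, 0, 1, 0; 0, 0, 0, 1], 0),
    (1, !![1, 0, 0, 0; 1, 0, -1, 1; 0, 1, -1, 0; 0, 0, 0, 1], 0),
    (-1, !![-1, 1, 0, 0; 0, 1, 0, 0; 0, 0, 1, 0; 0, 0, 0, 1], 0),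
    (1, !![-1, 1, 0, 0; 0, 1, 0, 0; 0, 1, -1, 0; 0, 0, 0, 1], 0),
    (1, !![0, -1, 1, 1; 1, -1, 1, 1; 0, 0, 1, 0; 0, 0, 0, 1], 0),
    (-1, !![0, 0, -1, 1; 1, 0, -1, 1; 0, 1, -1, 0; 0, 0, 0, 1], 0)]),
  (0, 2, 560, [
    (-4, !![1, 0, 0, 0; 0, 1, 0, 0; 0, 0, 1, 0; 0, 0, 0, 1], 1),
    (4, !![-1, 1, 0, 0; 0, 1, 0, 0; 0, 0, 1, 0; 0, 0, 0, 1], 1),
    (5, !![1, 0, 0, 0; 1, -1, 1, 1; 0, 0, 1, 0; 0, 0, 0, 1], 1),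
    (-5, !![0, -1, 1, 1; 1, -1, 1, 1; 0, 0, 1, 0; 0, 0, 0, 1], 1),
    (1, !![1, 0, 0, 0; 0, 1, 0, 0; 0, 1, -1, 0; 0, 0, 0, 1], 1),
    (-1, !![1, 0, 0, 0; 1, 0, -1, 1; 0, 1, -1, 0; 0, 0, 0, 1], 1),
    (-1, !![-1, 1, 0, 0; 0, 1, 0, 0; 0, 1, -1, 0; 0, 0, 0, 1], 1),
    (1, !![0, 0, -1, 1; 1, 0, -1, 1; 0, 1, -1, 0; 0, 0, 0, 1], 1)]),
  (0, 3, 560, [
    (2, !![1, 0, 0, 0; 0, 1, 0, 0; 0, 0, 1, 0; 0, 0, 0, 1], 1),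
    (-2, !![-1, 1, 0, 0; 0, 1, 0, 0; 0, 0, 1, 0; 0, 0, 0, 1], 1),
    (1, !![1, 0, 0, 0; 1, -1, 1, 1; 0, 0, 1, 0; 0, 0, 0, 1], 1),
    (-1, !![0, -1, 1, 1; 1, -1, 1, 1; 0, 0, 1, 0; 0, 0, 0, 1], 1),
    (-4, !![1, 0, 0, 0; 0, 1, 0, 0; 0, 1, -1, 0; 0, 0, 0, 1], 1),
    (4, !![1, 0, 0, 0; 1, 0, -1, 1; 0, 1, -1, 0; 0, 0, 0, 1], 1),
    (4, !![-1, 1, 0, 0; 0, 1, 0, 0; 0, 1, -1, 0; 0, 0, 0, 1], 1),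
    (-4, !![0, 0, -1, 1; 1, 0, -1, 1; 0, 1, -1, 0; 0, 0, 0, 1], 1)]),
  (0, 4, 560, [
    (4, !![1, 0, 0, 0; 0, 1, 0, 0; 0, 0, 1, 0; 0, 0, 0, 1], 1),
    (-4, !![-1, 1, 0, 0; 0, 1, 0, 0; 0, 0, 1, 0; 0, 0, 0, 1], 1),
    (2, !![1, 0, 0, 0; 1, -1, 1, 1; 0, 0, 1, 0; 0, 0, 0, 1], 1),
    (-2, !![0, -1, 1, 1; 1, -1, 1, 1; 0, 0, 1, 0; 0, 0, 0, 1], 1),
    (-1, !![1, 0, 0, 0; 0, 1, 0, 0; 0, 1, -1, 0; 0, 0, 0, 1], 1),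
    (1, !![1, 0, 0, 0; 1, 0, -1, 1; 0, 1, -1, 0; 0, 0, 0, 1], 1),
    (1, !![-1, 1, 0, 0; 0, 1, 0, 0; 0, 1, -1, 0; 0, 0, 0, 1], 1),
    (-1, !![0, 0, -1, 1; 1, 0, -1, 1; 0, 1, -1, 0; 0, 0, 0, 1], 1)]),
  (1, 0, 80, [
    (-1, !![1, 0, 0, 0; 0, 1, 0, 0; 0, 0, 1, 0; 0, 0, 0, 1], 0),
    (1, !![1, 0, 0, 0; 0, 1, 0, 0; 0, 0, 1, 0; 0, 1, 0, -1], 0),
    (1, !![1, 0, 0, 0; 1, -1, 1, 1; 0, 0, 1, 0; 0, 0, 0, 1], 0),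
    (-1, !![1, 0, 0, 0; 1, 0, 1, -1; 0, 0, 1, 0; 0, 1, 0, -1], 0)]),
  (1, 1, 80, [
    (-1, !![1, 0, 0, 0; 0, 1, 0, 0; 0, 0, 1, 0; 0, 0, 0, 1], 0),
    (1, !![1, 0, 0, 0; 0, 1, 0, 0; 0, 1, -1, 0; 0, 0, 0, 1], 0),
    (1, !![1, 0, 0, 0; 1, -1, 1, 1; 0, 0, 1, 0; 0, 0, 0, 1], 0),
    (-1, !![1, 0, 0, 0; 1, 0, -1, 1; 0, 1, -1, 0; 0, 0, 0, 1], 0)]),
  (1, 2, 560, [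
    (4, !![1, 0, 0, 0; 0, 1, 0, 0; 0, 0, 1, 0; 0, 0, 0, 1], 1),
    (1, !![-1, 1, 0, 0; 0, 1, 0, 0; 0, 0, 1, 0; 0, 0, 0, 1], 1),
    (-4, !![1, 0, 0, 0; 1, -1, 1, 1; 0, 0, 1, 0; 0, 0, 0, 1], 1),
    (-1, !![-1, 1, 0, 0; -1, 0, 1, 1; 0, 0, 1, 0; 0, 0, 0, 1], 1),
    (-1, !![1, 0, 0, 0; 0, 1, 0, 0; 0, 1, -1, 0; 0, 0, 0, 1], 1),
    (1, !![1, 0, 0, 0; 1, 0, -1, 1; 0, 1, -1, 0; 0, 0, 0, 1], 1)]),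
  (1, 3, 560, [
    (-2, !![1, 0, 0, 0; 0, 1, 0, 0; 0, 0, 1, 0; 0, 0, 0, 1], 1),
    (3, !![-1, 1, 0, 0; 0, 1, 0, 0; 0, 0, 1, 0; 0, 0, 0, 1], 1),
    (2, !![1, 0, 0, 0; 1, -1, 1, 1; 0, 0, 1, 0; 0, 0, 0, 1], 1),
    (-3, !![-1, 1, 0, 0; -1, 0, 1, 1; 0, 0, 1, 0; 0, 0, 0, 1], 1),
    (4, !![1, 0, 0, 0; 0, 1, 0, 0; 0, 1, -1, 0; 0, 0, 0, 1], 1),
    (-4, !![1, 0, 0, 0; 1, 0, -1, 1; 0, 1, -1, 0; 0, 0, 0, 1], 1)]),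
  (1, 4, 560, [
    (-4, !![1, 0, 0, 0; 0, 1, 0, 0; 0, 0, 1, 0; 0, 0, 0, 1], 1),
    (6, !![-1, 1, 0, 0; 0, 1, 0, 0; 0, 0, 1, 0; 0, 0, 0, 1], 1),
    (4, !![1, 0, 0, 0; 1, -1, 1, 1; 0, 0, 1, 0; 0, 0, 0, 1], 1),
    (-6, !![-1, 1, 0, 0; -1, 0, 1, 1; 0, 0, 1, 0; 0, 0, 0, 1], 1),
    (1, !![1, 0, 0, 0; 0, 1, 0, 0; 0, 1, -1, 0; 0, 0, 0, 1], 1),
    (-1, !![1, 0, 0, 0; 1, 0, -1, 1; 0, 1, -1, 0; 0, 0, 0, 1], 1)]),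
  (2, 0, 80, [
    (1, !![1, 0, 0, 0; 0, 1, 0, 0; 0, 0, 1, 0; 0, 0, 0, 1], 0),
    (-1, !![1, 0, 0, 0; 0, 1, 0, 0; 0, 0, 1, 0; 0, 1, 0, -1], 0),
    (-1, !![1, 0, 0, 0; 1, -1, 1, 1; 0, 0, 1, 0; 0, 0, 0, 1], 0),
    (1, !![1, 0, 0, 0; 1, 0, 1, -1; 0, 0, 1, 0; 0, 1, 0, -1], 0),
    (-1, !![1, 0, 0, 0; 0, 1, 0, 0; 0, 1, -1, 0; 0, 0, 0, 1], 0),
    (1, !![1, 0, 0, 0; 0, 1, 0, 0; 0, 1, -1, 0; 0, 1, 0, -1], 0),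
    (1, !![1, 0, 0, 0; 1, -1, 1, 1; 1, -1, 0, 1; 0, 0, 0, 1], 0),
    (-1, !![1, 0, 0, 0; 1, 0, 1, -1; 1, 0, 0, -1; 0, 1, 0, -1], 0)]),
  (2, 1, 80, [
    (1, !![1, 0, 0, 0; 0, 1, 0, 0; 0, 0, 1, 0; 0, 0, 0, 1], 0),
    (-1, !![1, 0, 0, 0; 0, 1, 0, 0; 0, 1, -1, 0; 0, 0, 0, 1], 0)]),
  (2, 2, 560, [
    (-4, !![1, 0, 0, 0; 0, 1, 0, 0; 0, 0, 1, 0; 0, 0, 0, 1], 1),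
    (-1, !![-1, 1, 0, 0; 0, 1, 0, 0; 0, 0, 1, 0; 0, 0, 0, 1], 1),
    (3, !![1, 0, 0, 0; 1, -1, 1, 1; 0, 0, 1, 0; 0, 0, 0, 1], 1),
    (1, !![-1, 1, 0, 0; -1, 0, 1, 1; 0, 0, 1, 0; 0, 0, 0, 1], 1),
    (4, !![1, 0, 0, 0; 0, 1, 0, 0; 0, 1, -1, 0; 0, 0, 0, 1], 1),
    (1, !![-1, 1, 0, 0; 0, 1, 0, 0; 0, 1, -1, 0; 0, 0, 0, 1], 1),
    (-3, !![1, 0, 0, 0; 1, -1, 1, 1; 1, -1, 0, 1; 0, 0, 0, 1], 1),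
    (-1, !![-1, 1, 0, 0; -1, 0, 1, 1; -1, 0, 0, 1; 0, 0, 0, 1], 1)]),
  (2, 3, 560, [
    (2, !![1, 0, 0, 0; 0, 1, 0, 0; 0, 0, 1, 0; 0, 0, 0, 1], 1),
    (-3, !![-1, 1, 0, 0; 0, 1, 0, 0; 0, 0, 1, 0; 0, 0, 0, 1], 1),
    (2, !![1, 0, 0, 0; 1, -1, 1, 1; 0, 0, 1, 0; 0, 0, 0, 1], 1),
    (3, !![-1, 1, 0, 0; -1, 0, 1, 1; 0, 0, 1, 0; 0, 0, 0, 1], 1),
    (-2, !![1, 0, 0, 0; 0, 1, 0, 0; 0, 1, -1, 0; 0, 0, 0, 1], 1),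
    (3, !![-1, 1, 0, 0; 0, 1, 0, 0; 0, 1, -1, 0; 0, 0, 0, 1], 1),
    (-2, !![1, 0, 0, 0; 1, -1, 1, 1; 1, -1, 0, 1; 0, 0, 0, 1], 1),
    (-3, !![-1, 1, 0, 0; -1, 0, 1, 1; -1, 0, 0, 1; 0, 0, 0, 1], 1)]),
  (2, 4, 560, [
    (4, !![1, 0, 0, 0; 0, 1, 0, 0; 0, 0, 1, 0; 0, 0, 0, 1], 1),
    (-6, !![-1, 1, 0, 0; 0, 1, 0, 0; 0, 0, 1, 0; 0, 0, 0, 1], 1),
    (-3, !![1, 0, 0, 0; 1, -1, 1, 1; 0, 0, 1, 0; 0, 0, 0, 1], 1),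
    (6, !![-1, 1, 0, 0; -1, 0, 1, 1; 0, 0, 1, 0; 0, 0, 0, 1], 1),
    (-4, !![1, 0, 0, 0; 0, 1, 0, 0; 0, 1, -1, 0; 0, 0, 0, 1], 1),
    (6, !![-1, 1, 0, 0; 0, 1, 0, 0; 0, 1, -1, 0; 0, 0, 0, 1], 1),
    (3, !![1, 0, 0, 0; 1, -1, 1, 1; 1, -1, 0, 1; 0, 0, 0, 1], 1),
    (-6, !![-1, 1, 0, 0; -1, 0, 1, 1; -1, 0, 0, 1; 0, 0, 0, 1], 1)]),
  (3, 0, 80, [
    (1, !![1, 0, 0, 0; 0, 1, 0, 0; 0, 0, 1, 0; 0, 0, 0, 1], 0),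
    (-1, !![1, 0, 0, 0; 0, 1, 0, 0; 0, 0, 1, 0; 0, 1, 0, -1], 0)]),
  (3, 1, 80, [
    (1, !![1, 0, 0, 0; 0, 1, 0, 0; 0, 0, 1, 0; 0, 0, 0, 1], 0),
    (-1, !![1, 0, 0, 0; 0, 1, 0, 0; 0, 1, -1, 0; 0, 0, 0, 1], 0),
    (-1, !![1, 0, 0, 0; 1, -1, 1, 1; 0, 0, 1, 0; 0, 0, 0, 1], 0),
    (1, !![1, 0, 0, 0; 1, 0, -1, 1; 0, 1, -1, 0; 0, 0, 0, 1], 0),
    (-1, !![1, 0, 0, 0; 0, 1, 0, 0; 0, 0, 1, 0; 0, 1, 0, -1], 0),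
    (1, !![1, 0, 0, 0; 0, 1, 0, 0; 0, 1, -1, 0; 0, 1, 0, -1], 0),
    (1, !![1, 0, 0, 0; 1, -1, 1, 1; 0, 0, 1, 0; 1, -1, 1, 0], 0),
    (-1, !![1, 0, 0, 0; 1, 0, -1, 1; 0, 1, -1, 0; 1, 0, -1, 0], 0)]),
  (3, 2, 560, [
    (-4, !![1, 0, 0, 0; 0, 1, 0, 0; 0, 0, 1, 0; 0, 0, 0, 1], 1),
    (-1, !![-1, 1, 0, 0; 0, 1, 0, 0; 0, 0, 1, 0; 0, 0, 0, 1], 1),
    (4, !![1, 0, 0, 0; 1, -1, 1, 1; 0, 0, 1, 0; 0, 0, 0, 1], 1),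
    (1, !![-1, 1, 0, 0; -1, 0, 1, 1; 0, 0, 1, 0; 0, 0, 0, 1], 1),
    (4, !![1, 0, 0, 0; 0, 1, 0, 0; 0, 0, 1, 0; 0, 1, 0, -1], 1),
    (1, !![-1, 1, 0, 0; 0, 1, 0, 0; 0, 0, 1, 0; 0, 1, 0, -1], 1),
    (-4, !![1, 0, 0, 0; 1, -1, 1, 1; 0, 0, 1, 0; 1, -1, 1, 0], 1),
    (-1, !![-1, 1, 0, 0; -1, 0, 1, 1; 0, 0, 1, 0; -1, 0, 1, 0], 1),
    (1, !![1, 0, 0, 0; 0, 1, 0, 0; 0, 1, -1, 0; 0, 0, 0, 1], 1),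
    (-1, !![1, 0, 0, 0; 1, 0, -1, 1; 0, 1, -1, 0; 0, 0, 0, 1], 1),
    (-1, !![1, 0, 0, 0; 0, 1, 0, 0; 0, 1, -1, 0; 0, 1, 0, -1], 1),
    (1, !![1, 0, 0, 0; 1, 0, -1, 1; 0, 1, -1, 0; 1, 0, -1, 0], 1)]),
  (3, 3, 560, [
    (2, !![1, 0, 0, 0; 0, 1, 0, 0; 0, 0, 1, 0; 0, 0, 0, 1], 1),
    (-3, !![-1, 1, 0, 0; 0, 1, 0, 0; 0, 0, 1, 0; 0, 0, 0, 1], 1),
    (-2, !![1, 0, 0, 0; 1, -1, 1, 1; 0, 0, 1, 0; 0, 0, 0, 1], 1),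
    (3, !![-1, 1, 0, 0; -1, 0, 1, 1; 0, 0, 1, 0; 0, 0, 0, 1], 1),
    (-2, !![1, 0, 0, 0; 0, 1, 0, 0; 0, 0, 1, 0; 0, 1, 0, -1], 1),
    (3, !![-1, 1, 0, 0; 0, 1, 0, 0; 0, 0, 1, 0; 0, 1, 0, -1], 1),
    (2, !![1, 0, 0, 0; 1, -1, 1, 1; 0, 0, 1, 0; 1, -1, 1, 0], 1),
    (-3, !![-1, 1, 0, 0; -1, 0, 1, 1; 0, 0, 1, 0; -1, 0, 1, 0], 1),
    (-4, !![1, 0, 0, 0; 0, 1, 0, 0; 0, 1, -1, 0; 0, 0, 0, 1], 1),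
    (4, !![1, 0, 0, 0; 1, 0, -1, 1; 0, 1, -1, 0; 0, 0, 0, 1], 1),
    (4, !![1, 0, 0, 0; 0, 1, 0, 0; 0, 1, -1, 0; 0, 1, 0, -1], 1),
    (-4, !![1, 0, 0, 0; 1, 0, -1, 1; 0, 1, -1, 0; 1, 0, -1, 0], 1)]),
  (3, 4, 560, [
    (4, !![1, 0, 0, 0; 0, 1, 0, 0; 0, 0, 1, 0; 0, 0, 0, 1], 1),
    (-6, !![-1, 1, 0, 0; 0, 1, 0, 0; 0, 0, 1, 0; 0, 0, 0, 1], 1),
    (-4, !![1, 0, 0, 0; 1, -1, 1, 1; 0, 0, 1, 0; 0, 0, 0, 1], 1),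
    (6, !![-1, 1, 0, 0; -1, 0, 1, 1; 0, 0, 1, 0; 0, 0, 0, 1], 1),
    (-4, !![1, 0, 0, 0; 0, 1, 0, 0; 0, 0, 1, 0; 0, 1, 0, -1], 1),
    (6, !![-1, 1, 0, 0; 0, 1, 0, 0; 0, 0, 1, 0; 0, 1, 0, -1], 1),
    (4, !![1, 0, 0, 0; 1, -1, 1, 1; 0, 0, 1, 0; 1, -1, 1, 0], 1),
    (-6, !![-1, 1, 0, 0; -1, 0, 1, 1; 0, 0, 1, 0; -1, 0, 1, 0], 1),
    (-1, !![1, 0, 0, 0; 0, 1, 0, 0; 0, 1, -1, 0; 0, 0, 0, 1], 1),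
    (1, !![1, 0, 0, 0; 1, 0, -1, 1; 0, 1, -1, 0; 0, 0, 0, 1], 1),
    (1, !![1, 0, 0, 0; 0, 1, 0, 0; 0, 1, -1, 0; 0, 1, 0, -1], 1),
    (-1, !![1, 0, 0, 0; 1, 0, -1, 1; 0, 1, -1, 0; 1, 0, -1, 0], 1)])]

/-- The value of a certificate. -/
def evalL (L : List (ℤ × Matrix (Fin 4) (Fin 4) ℤ × Fin 4)) : Matrix (Fin 4) (Fin 5) ℤ :=
  (L.map fun t => t.1 • (t.2.1 * a t.2.2)).sum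

/-- The cost of a certificate. -/
def costL (L : List (ℤ × Matrix (Fin 4) (Fin 4) ℤ × Fin 4)) : ℤ := (L.map fun t => |t.1|).sum

/-- All matrices in the certificate preserve the form. -/
def GoodL (L : List (ℤ × Matrix (Fin 4) (Fin 4) ℤ × Fin 4)) : Prop :=
  ∀ t ∈ L, t.2.1ᵀ * Q * t.2.1 = Q

instance (L : List (ℤ × Matrix (Fin 4) (Fin 4) ℤ × Fin 4)) : Decidable (GoodL L) := by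
  unfold GoodL; infer_instance

theorem pairCerts_ok : ∀ c ∈ pairCerts, 0 < c.2.2.2.1 ∧ GoodL c.2.2.2.2 ∧
    costL c.2.2.2.2 < 2 * c.2.2.2.1 ∧
    evalL c.2.2.2.2 = c.2.2.2.1 • (a c.1 + c.2.2.1 • a c.2.1) := by
  decide +kernel

theorem basisCerts_ok : ∀ c ∈ basisCerts, 0 < c.2.2.1 ∧ GoodL c.2.2.2 ∧
    evalL c.2.2.2 = c.2.2.1 • (Matrix.of fun i j => if i = c.1 ∧ j = c.2.1 then (1 : ℤ) else 0) := by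
  decide +kernel

theorem pairCerts_all : ∀ i j : Fin 4, i < j → ∀ s ∈ [(1 : ℤ), -1],
    ∃ c ∈ pairCerts, c.1 = i ∧ c.2.1 = j ∧ c.2.2.1 = s := by
  decide +kernel

theorem basisCerts_all : ∀ (i : Fin 4) (j : Fin 5), ∃ c ∈ basisCerts, c.1 = i ∧ c.2.1 = j := by
  decide +kernel

end Pool.Agent.MP_123198_al
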