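import Mathlib

/-!
# Admissible sets for finite integral matrix groups

Definitions of the problem: the polytope `ConvHull(A^F)`, its facets, admissible sets, and the
conditions (S) and (B).
-/

namespace Pool.Agent.MP_123198_al

open Matrix

/-- The integer vector `x`, viewed in `ℝ^d`. -/
def toReal {d : ℕ} (x : Fin d → ℤ) : Fin d → ℝ := fun i => (x i : ℝ)

/-- `A^F = {f(a) : f ∈ F, a ∈ A}`. -/
def orbitSet {d : ℕ} (F : Subgroup (GL (Fin d) ℤ)) (A : Set (Fin d → ℤ)) : Set (Fin d → ℤ) :=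
  {x | ∃ f ∈ F, ∃ a ∈ A, x = (f : Matrix (Fin d) (Fin d) ℤ) *ᵥ a}

/-- `P = ConvHull(A^F) ⊂ ℝ^d`. -/
def hull {d : ℕ} (F : Subgroup (GL (Fin d) ℤ)) (A : Set (Fin d → ℤ)) : Set (Fin d → ℝ) :=
  convexHull ℝ (toReal '' orbitSet F A)

/-- `φ` is a facet of the polytope `P ⊂ ℝ^d`: a nonempty (exposed) face of dimension `d - 1`. -/
def IsFacet {d : ℕ} (P φ : Set (Fin d → ℝ)) : Prop :=
  φ.Nonempty ∧ IsExposed ℝ P φ ∧ Module.finrank ℝ (vectorSpan ℝ φ) + 1 = d

/-- The set `A` is admissible for `F`: it is finite, `P = ConvHull(A^F)` has nonempty interior,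
and every facet of `P` contains at most one point of `A`. -/
structure Admissible {d : ℕ} (F : Subgroup (GL (Fin d) ℤ)) (A : Set (Fin d → ℤ)) : Prop where
  finite : A.Finite
  fullDim : (interior (hull F A)).Nonempty
  facet : ∀ φ, IsFacet (hull F A) φ → {a | a ∈ A ∧ toReal a ∈ φ}.Subsingleton

/-- Condition (S): some finite symmetric set is admissible for `F`. -/
def CondS {d : ℕ} (F : Subgroup (GL (Fin d) ℤ)) : Prop :=
  ∃ A : Set (Fin d → ℤ), (∀ a ∈ A, -a ∈ A) ∧ Admissible F A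

/-- Condition (B): some antipodal pair `{v, -v}` is admissible for `F`. -/
def CondB {d : ℕ} (F : Subgroup (GL (Fin d) ℤ)) : Prop :=
  ∃ v : Fin d → ℤ, Admissible F {v, -v}

end Pool.Agent.MP_123198_al
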