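import Mathlib
import Pool.Agent.Lib.MP_123198_al.Defs

/-!
# Symmetric admissible sets: a sufficient condition through the gauge
-/

namespace Pool.Agent.MP_123198_al

open Matrix Set
open scoped Pointwise

section general

variable {d : ℕ}

theorem toReal_neg (x : Fin d → ℤ) : toReal (-x) = -toReal x := by
  funext i; simp [toReal]

theorem toReal_add (x y : Fin d → ℤ) : toReal (x + y) = toReal x + toReal y := by
  funext i; simp [toReal]

theorem toReal_zsmul (n : ℤ) (x : Fin d → ℤ) : toReal (n • x) = (n : ℝ) • toReal x := by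
  funext i; simp [toReal]

theorem toReal_injective : Function.Injective (toReal (d := d)) := by
  intro x y h
  funext i
  have := congrFun h i
  simpa [toReal] using this

/-- If the (symmetric) set `S` spans, then `0` is in the interior of its convex hull. -/
theorem zero_mem_interior_convexHull {S : Set (Fin d → ℝ)} (hne : S.Nonempty)
    (hsymm : ∀ x ∈ S, -x ∈ S) (hspan : Submodule.span ℝ S = ⊤) :
    (0 : Fin d → ℝ) ∈ interior (convexHull ℝ S) := by
  have hv : vectorSpan ℝ S = ⊤ := by
    rw [eq_top_iff, ← hspan, Submodule.span_le]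
    intro x hx
    have h1 : x -ᵥ (-x) ∈ vectorSpan ℝ S := vsub_mem_vectorSpan ℝ hx (hsymm x hx)
    have h2 : (2 : ℝ)⁻¹ • (x -ᵥ (-x)) ∈ vectorSpan ℝ S := Submodule.smul_mem _ _ h1
    have h3 : (2 : ℝ)⁻¹ • (x -ᵥ (-x)) = x := by
      rw [vsub_eq_sub, sub_neg_eq_add, ← two_smul ℝ x, smul_smul]
      norm_num
    rw [h3] at h2
    exact h2
  have haff : affineSpan ℝ S = ⊤ := by
    rw [AffineSubspace.affineSpan_eq_top_iff_vectorSpan_eq_top_of_nonempty ℝ _ _ hne]
    exact hv
  have hint : (interior (convexHull ℝ S)).Nonempty :=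
    interior_convexHull_nonempty_iff_affineSpan_eq_top.2 haff
  obtain ⟨x, hx⟩ := hint
  have hnegS : -S = S := by
    ext y
    rw [Set.mem_neg]
    constructor
    · intro h; simpa using hsymm _ h
    · intro h; exact hsymm _ h
  have hneg : -convexHull ℝ S = convexHull ℝ S := by
    rw [← convexHull_neg, hnegS]
  have hx' : -x ∈ interior (convexHull ℝ S) := by
    have h1 : interior (-convexHull ℝ S) = -interior (convexHull ℝ S) := by
      have := (Homeomorph.neg (Fin d → ℝ)).image_interior (convexHull ℝ S)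
      simp only [Homeomorph.coe_neg, Set.image_neg_eq_neg] at this
      exact this.symm
    rw [hneg] at h1
    rw [h1]
    simpa using hx
  have hc : Convex ℝ (interior (convexHull ℝ S)) := (convex_convexHull ℝ S).interior
  have h2 := hc hx hx' (show (0 : ℝ) ≤ 1 / 2 by norm_num) (show (0 : ℝ) ≤ 1 / 2 by norm_num)
    (by norm_num)
  have h3 : (1 / 2 : ℝ) • x + (1 / 2 : ℝ) • (-x) = 0 := by
    rw [smul_neg, add_neg_cancel]
  rwa [h3] at h2

variable {F : Subgroup (GL (Fin d) ℤ)} {A : Set (Fin d → ℤ)}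

theorem orbitSet_symm (hA : ∀ a ∈ A, -a ∈ A) : ∀ x ∈ toReal '' orbitSet F A,
    -x ∈ toReal '' orbitSet F A := by
  rintro _ ⟨x, ⟨f, hf, a, ha, rfl⟩, rfl⟩
  refine ⟨_, ⟨f, hf, -a, hA a ha, rfl⟩, ?_⟩
  rw [Matrix.mulVec_neg, toReal_neg]

theorem mem_orbitSet_of_mem {a : Fin d → ℤ} (ha : a ∈ A) : a ∈ orbitSet F A :=
  ⟨1, F.one_mem, a, ha, by simp⟩

theorem mem_hull_of_mem {a : Fin d → ℤ} (ha : a ∈ A) : toReal a ∈ hull F A :=
  subset_convexHull ℝ _ ⟨a, mem_orbitSet_of_mem ha, rfl⟩

theorem neg_mem_hull (hA : ∀ a ∈ A, -a ∈ A) {x : Fin d → ℝ} (hx : x ∈ hull F A) :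
    -x ∈ hull F A := by
  have hnegS : -(toReal '' orbitSet F A) = toReal '' orbitSet F A := by
    ext y
    rw [Set.mem_neg]
    constructor
    · intro h; simpa using orbitSet_symm hA _ h
    · intro h; exact orbitSet_symm hA _ h
  have hneg : -hull F A = hull F A := by
    unfold hull
    rw [← convexHull_neg, hnegS]
  rw [← hneg, Set.mem_neg, neg_neg]
  exact hx

theorem gauge_neg' (hA : ∀ a ∈ A, -a ∈ A) (x : Fin d → ℝ) :
    gauge (hull F A) (-x) = gauge (hull F A) x :=
  gauge_neg (fun _ h => neg_mem_hull hA h) x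

/-- A linear functional which is maximal at an interior point vanishes. -/
theorem eq_zero_of_max_interior {P : Set (Fin d → ℝ)} (l : (Fin d → ℝ) →L[ℝ] ℝ)
    {m : Fin d → ℝ} (hm : m ∈ interior P) (hmax : ∀ y ∈ P, l y ≤ l m) : l = 0 := by
  ext1 z
  have hle : ∀ z, l z ≤ 0 := by
    intro z
    have hcont : Filter.Tendsto (fun t : ℝ => m + t • z) (nhds 0) (nhds (m + (0 : ℝ) • z)) :=
      (Continuous.add continuous_const (continuous_id.smul continuous_const)).tendsto _
    rw [zero_smul, add_zero] at hcont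
    have hev := hcont.eventually (isOpen_interior.mem_nhds hm)
    rw [Metric.eventually_nhds_iff] at hev
    obtain ⟨ε, hε, h⟩ := hev
    have h1 : m + (ε / 2) • z ∈ interior P := by
      apply h
      rw [Real.dist_eq, sub_zero, abs_of_pos (by positivity)]
      linarith
    have h2 := hmax _ (interior_subset h1)
    rw [map_add, map_smul, smul_eq_mul] at h2
    have h3 : (ε / 2) * l z ≤ 0 := by linarith
    by_contra hcon
    rw [not_le] at hcon
    have : 0 < (ε / 2) * l z := by positivity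
    linarith
  have h1 := hle z
  have h2 := hle (-z)
  rw [map_neg] at h2
  simp only [_root_.zero_apply]
  linarith

/-- The sufficient condition for admissibility. -/
theorem admissible_of_gauge (hfin : A.Finite) (hne : A.Nonempty)
    (hA : ∀ a ∈ A, -a ∈ A)
    (hspan : Submodule.span ℝ (toReal '' orbitSet F A) = ⊤)
    (hpair : ∀ a ∈ A, ∀ b ∈ A, a ≠ b → b ≠ -a →
      gauge (hull F A) (toReal a + toReal b) < 2) :
    Admissible F A := by
  have hne' : (toReal '' orbitSet F A).Nonempty := by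
    obtain ⟨a, ha⟩ := hne
    exact ⟨_, a, mem_orbitSet_of_mem ha, rfl⟩
  have h0 : (0 : Fin d → ℝ) ∈ interior (hull F A) :=
    zero_mem_interior_convexHull hne' (orbitSet_symm hA) hspan
  have hconv : Convex ℝ (hull F A) := convex_convexHull ℝ _
  refine ⟨hfin, ⟨0, h0⟩, ?_⟩
  rintro φ ⟨hφne, hexp, hdim⟩ a ⟨haA, haφ⟩ b ⟨hbA, hbφ⟩
  by_contra hab
  -- the midpoint is an interior point
  have hmid : (1 / 2 : ℝ) • (toReal a + toReal b) ∈ interior (hull F A) := by
    by_cases hb : b = -a
    · subst hb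
      rw [toReal_neg, add_neg_cancel, smul_zero]
      exact h0
    · have hg := hpair a haA b hbA hab hb
      rw [← gauge_lt_one_iff_mem_interior hconv (mem_interior_iff_mem_nhds.1 h0),
        gauge_smul_of_nonneg (by norm_num : (0 : ℝ) ≤ 1 / 2), smul_eq_mul]
      linarith
  obtain ⟨l, hl⟩ := hexp ⟨_, haφ⟩
  have ha' : toReal a ∈ hull F A ∧ ∀ y ∈ hull F A, l y ≤ l (toReal a) := by
    rw [hl] at haφ; exact haφ
  have hb' : toReal b ∈ hull F A ∧ ∀ y ∈ hull F A, l y ≤ l (toReal b) := by
    rw [hl] at hbφ; exact hbφ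
  have hab' : l (toReal a) = l (toReal b) := le_antisymm (hb'.2 _ ha'.1) (ha'.2 _ hb'.1)
  have hl0 : l = 0 := by
    apply eq_zero_of_max_interior l hmid
    intro y hy
    rw [map_smul, map_add, ← hab', smul_eq_mul]
    have := ha'.2 y hy
    linarith
  have hφP : φ = hull F A := by
    rw [hl, hl0]
    ext x
    simp
  rw [hφP] at hdim
  have hvs : vectorSpan ℝ (hull F A) = ⊤ := by
    have h1 : affineSpan ℝ (hull F A) = ⊤ := by
      unfold hull at h0 ⊢
      rw [affineSpan_convexHull]
      exact interior_convexHull_nonempty_iff_affineSpan_eq_top.1 ⟨0, h0⟩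
    rwa [AffineSubspace.affineSpan_eq_top_iff_vectorSpan_eq_top_of_nonempty ℝ _ _
      ⟨_, interior_subset h0⟩] at h1
  rw [hvs, finrank_top] at hdim
  simp at hdim

end general

end Pool.Agent.MP_123198_al
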