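import Mathlib
import Pool.Agent.Lib.MP_123198_al.Defs
import Pool.Agent.Lib.MP_123198_al.Data

/-!
# The group: the Weyl group of `F₄` acting diagonally on `(ℤ⁴)⁵`
-/

namespace Pool.Agent.MP_123198_al

open Matrix
open scoped Kronecker

/-- `Fin 4 × Fin 5 ≃ Fin 20`. -/
def e : Fin 4 × Fin 5 ≃ Fin 20 := finProdFinEquiv

/-- The `20 × 20` matrix of `X ↦ M X` on `4 × 5` matrices `X`. -/
def R (M : Matrix (Fin 4) (Fin 4) ℤ) : Matrix (Fin 20) (Fin 20) ℤ :=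
  reindex e e (M ⊗ₖ (1 : Matrix (Fin 5) (Fin 5) ℤ))

/-- A `4 × 5` matrix as a vector of length `20`. -/
def vec (X : Matrix (Fin 4) (Fin 5) ℤ) : Fin 20 → ℤ := fun t => X (e.symm t).1 (e.symm t).2

theorem R_one : R 1 = 1 := by
  simp [R]

theorem R_mul (M N : Matrix (Fin 4) (Fin 4) ℤ) : R (M * N) = R M * R N := by
  unfold R
  rw [reindex_apply, reindex_apply, reindex_apply, Matrix.submatrix_mul_equiv,
    ← Matrix.mul_kronecker_mul, one_mul]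

theorem R_mulVec (M : Matrix (Fin 4) (Fin 4) ℤ) (X : Matrix (Fin 4) (Fin 5) ℤ) :
    R M *ᵥ vec X = vec (M * X) := by
  funext t
  simp only [R, vec, mulVec, dotProduct, reindex_apply, submatrix_apply, kroneckerMap_apply,
    Matrix.mul_apply]
  rw [← e.sum_comp, Fintype.sum_prod_type]
  simp [Matrix.one_apply]

theorem vec_injective : Function.Injective vec := by
  intro X Y h
  ext i j
  have := congrFun h (e (i, j))
  simpa [vec] using this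

theorem vec_surjective : Function.Surjective vec := by
  intro x
  refine ⟨Matrix.of fun i j => x (e (i, j)), ?_⟩
  funext t
  simp [vec]

/-- The isometry condition. -/
def Iso (M : Matrix (Fin 4) (Fin 4) ℤ) : Prop := Mᵀ * Q * M = Q

theorem Iso.det {M : Matrix (Fin 4) (Fin 4) ℤ} (h : Iso M) : IsUnit M.det := by
  have h1 : M.det * Q.det * M.det = Q.det := by
    have := congrArg Matrix.det h
    simpa [Matrix.det_mul] using this
  have h2 : Q.det = 4 := by decide +kernel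
  rw [h2] at h1
  have h3 : M.det * M.det = 1 := by linarith
  exact IsUnit.of_mul_eq_one _ h3

theorem Iso.one : Iso 1 := by simp [Iso]

theorem Iso.mul {M N : Matrix (Fin 4) (Fin 4) ℤ} (hM : Iso M) (hN : Iso N) : Iso (M * N) := by
  unfold Iso at *
  calc (M * N)ᵀ * Q * (M * N) = Nᵀ * (Mᵀ * Q * M) * N := by
        simp only [transpose_mul, Matrix.mul_assoc]
    _ = Q := by rw [hM, hN]

theorem Iso.inv {M : Matrix (Fin 4) (Fin 4) ℤ} (hM : Iso M) : Iso M⁻¹ := by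
  have h1 : M * M⁻¹ = 1 := Matrix.mul_nonsing_inv _ hM.det
  have h2 : (M⁻¹)ᵀ * Mᵀ = 1 := by rw [← transpose_mul, h1, transpose_one]
  unfold Iso at *
  calc (M⁻¹)ᵀ * Q * M⁻¹ = (M⁻¹)ᵀ * (Mᵀ * Q * M) * M⁻¹ := by rw [hM]
    _ = ((M⁻¹)ᵀ * Mᵀ) * Q * (M * M⁻¹) := by simp only [Matrix.mul_assoc]
    _ = Q := by rw [h1, h2, Matrix.one_mul, Matrix.mul_one]

/-- The group `F ≤ GL_20(ℤ)`: matrices `R M` with `Mᵀ Q M = Q`. -/
def F : Subgroup (GL (Fin 20) ℤ) where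
  carrier := {g | ∃ M : Matrix (Fin 4) (Fin 4) ℤ, Iso M ∧ (g : Matrix (Fin 20) (Fin 20) ℤ) = R M}
  mul_mem' := by
    rintro g h ⟨M, hM, hg⟩ ⟨N, hN, hh⟩
    exact ⟨M * N, hM.mul hN, by rw [Units.val_mul, hg, hh, R_mul]⟩
  one_mem' := ⟨1, Iso.one, by rw [Units.val_one, R_one]⟩
  inv_mem' := by
    rintro g ⟨M, hM, hg⟩
    refine ⟨M⁻¹, hM.inv, ?_⟩
    have h1 : M * M⁻¹ = 1 := Matrix.mul_nonsing_inv _ hM.det
    have h2 : (g : Matrix (Fin 20) (Fin 20) ℤ) * R M⁻¹ = 1 := by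
      rw [hg, ← R_mul, h1, R_one]
    exact Units.inv_eq_of_mul_eq_one_right h2

theorem mem_F {g : GL (Fin 20) ℤ} :
    g ∈ F ↔ ∃ M : Matrix (Fin 4) (Fin 4) ℤ, Iso M ∧ (g : Matrix (Fin 20) (Fin 20) ℤ) = R M :=
  Iff.rfl

theorem exists_mem_F {M : Matrix (Fin 4) (Fin 4) ℤ} (hM : Iso M) :
    ∃ g ∈ F, (g : Matrix (Fin 20) (Fin 20) ℤ) = R M := by
  have h1 : M * M⁻¹ = 1 := Matrix.mul_nonsing_inv _ hM.det
  have h2 : M⁻¹ * M = 1 := Matrix.nonsing_inv_mul _ hM.det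
  refine ⟨⟨R M, R M⁻¹, ?_, ?_⟩, ⟨M, hM, rfl⟩, rfl⟩
  · rw [← R_mul, h1, R_one]
  · rw [← R_mul, h2, R_one]

theorem Iso.bound {M : Matrix (Fin 4) (Fin 4) ℤ} (hM : Iso M) (i j : Fin 4) :
    -2 ≤ M i j ∧ M i j ≤ 2 := by
  have h : (Mᵀ * Q * M) j j = Q j j := by rw [hM]
  have hq : Q j j = 2 := by fin_cases j <;> decide
  rw [hq] at h
  have hexp : (Mᵀ * Q * M) j j = 2 * (M 0 j) ^ 2 + 2 * (M 1 j) ^ 2 + 2 * (M 2 j) ^ 2 +
      2 * (M 3 j) ^ 2 - 2 * M 0 j * M 1 j - 2 * M 1 j * M 2 j - 2 * M 1 j * M 3 j := by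
    simp only [Matrix.mul_apply, Fin.sum_univ_four, transpose_apply, Q, of_apply, cons_val',
      cons_val_zero, cons_val_one, cons_val_fin_one]
    simp
    ring
  rw [hexp] at h
  have h0 : (2 * M 0 j - M 1 j) ^ 2 + (2 * M 2 j - M 1 j) ^ 2 + (2 * M 3 j - M 1 j) ^ 2 +
      (M 1 j) ^ 2 = 4 := by nlinarith
  have sq1 : (M 1 j) ^ 2 ≤ 2 ^ 2 := by
    nlinarith [sq_nonneg (2 * M 0 j - M 1 j),
      sq_nonneg (2 * M 2 j - M 1 j), sq_nonneg (2 * M 3 j - M 1 j)]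
  have sq0 : (2 * M 0 j - M 1 j) ^ 2 ≤ 2 ^ 2 := by
    nlinarith [sq_nonneg (M 1 j),
      sq_nonneg (2 * M 2 j - M 1 j), sq_nonneg (2 * M 3 j - M 1 j)]
  have sq2 : (2 * M 2 j - M 1 j) ^ 2 ≤ 2 ^ 2 := by
    nlinarith [sq_nonneg (M 1 j),
      sq_nonneg (2 * M 0 j - M 1 j), sq_nonneg (2 * M 3 j - M 1 j)]
  have sq3 : (2 * M 3 j - M 1 j) ^ 2 ≤ 2 ^ 2 := by
    nlinarith [sq_nonneg (M 1 j),
      sq_nonneg (2 * M 0 j - M 1 j), sq_nonneg (2 * M 2 j - M 1 j)]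
  have b1 := abs_le_of_sq_le_sq' sq1 (by norm_num)
  have b0 := abs_le_of_sq_le_sq' sq0 (by norm_num)
  have b2 := abs_le_of_sq_le_sq' sq2 (by norm_num)
  have b3 := abs_le_of_sq_le_sq' sq3 (by norm_num)
  fin_cases i
  · simp only [Fin.zero_eta]; omega
  · simp only [Fin.mk_one]; omega
  · simp only [Fin.reduceFinMk]; omega
  · simp only [Fin.reduceFinMk]; omega

theorem finite_F : (F : Set (GL (Fin 20) ℤ)).Finite := by
  have h1 : {M : Matrix (Fin 4) (Fin 4) ℤ | Iso M}.Finite := by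
    have : (Set.Icc (fun _ _ => (-2 : ℤ)) (fun _ _ => (2 : ℤ)) : Set (Fin 4 → Fin 4 → ℤ)).Finite :=
      Set.finite_Icc _ _
    refine this.subset ?_
    intro M hM
    exact ⟨fun i j => (hM.bound i j).1, fun i j => (hM.bound i j).2⟩
  have h2 : (R '' {M : Matrix (Fin 4) (Fin 4) ℤ | Iso M}).Finite := h1.image _
  refine (h2.preimage (f := fun g : GL (Fin 20) ℤ => (g : Matrix (Fin 20) (Fin 20) ℤ)) ?_).subset ?_
  · exact Units.val_injective.injOn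
  · rintro g ⟨M, hM, hg⟩
    exact ⟨M, hM, hg.symm⟩

end Pool.Agent.MP_123198_al
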