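import Mathlib
import Pool.Agent.Lib.MP_123198_al.Group
import Pool.Agent.Lib.MP_123198_al.Geom

/-!
# The group `F` satisfies (S) but not (B)
-/

namespace Pool.Agent.MP_123198_al

open Matrix Set

theorem vec_neg (X : Matrix (Fin 4) (Fin 5) ℤ) : vec (-X) = -vec X := rfl
theorem vec_add (X Y : Matrix (Fin 4) (Fin 5) ℤ) : vec (X + Y) = vec X + vec Y := rfl
theorem vec_zsmul (n : ℤ) (X : Matrix (Fin 4) (Fin 5) ℤ) : vec (n • X) = n • vec X := rfl

/-- The symmetric set `{± vec (a l)}`. -/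
def A₀ : Set (Fin 20 → ℤ) := {x | ∃ l : Fin 4, x = vec (a l) ∨ x = -vec (a l)}

theorem A₀_symm : ∀ x ∈ A₀, -x ∈ A₀ := by
  rintro x ⟨l, rfl | rfl⟩
  · exact ⟨l, Or.inr rfl⟩
  · exact ⟨l, Or.inl (neg_neg _)⟩

theorem A₀_finite : A₀.Finite := by
  have : A₀ = (Set.range fun l : Fin 4 => vec (a l)) ∪ (Set.range fun l : Fin 4 => -vec (a l)) := by
    ext x
    simp only [A₀, Set.mem_ofPred_eq, Set.mem_union, Set.mem_range]
    constructor
    · rintro ⟨l, rfl | rfl⟩
      · exact Or.inl ⟨l, rfl⟩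
      · exact Or.inr ⟨l, rfl⟩
    · rintro (⟨l, rfl⟩ | ⟨l, rfl⟩)
      · exact ⟨l, Or.inl rfl⟩
      · exact ⟨l, Or.inr rfl⟩
  rw [this]
  exact (Set.finite_range _).union (Set.finite_range _)

theorem mem_A₀ (l : Fin 4) : vec (a l) ∈ A₀ := ⟨l, Or.inl rfl⟩

theorem mem_orbit {M : Matrix (Fin 4) (Fin 4) ℤ} (hM : Iso M) (l : Fin 4) :
    vec (M * a l) ∈ orbitSet F A₀ := by
  obtain ⟨g, hg, hgM⟩ := exists_mem_F hM
  exact ⟨g, hg, vec (a l), mem_A₀ l, by rw [hgM, R_mulVec]⟩

theorem evalL_nil : evalL [] = 0 := rfl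

theorem evalL_cons (t) (L) : evalL (t :: L) = t.1 • (t.2.1 * a t.2.2) + evalL L := by
  simp [evalL]

theorem costL_cons (t) (L : List (ℤ × Matrix (Fin 4) (Fin 4) ℤ × Fin 4)) :
    costL (t :: L) = |t.1| + costL L := by
  simp [costL]

theorem evalL_mem_span {L} (hL : GoodL L) :
    toReal (vec (evalL L)) ∈ Submodule.span ℝ (toReal '' orbitSet F A₀) := by
  induction L with
  | nil =>
    have : toReal (vec (evalL [])) = 0 := by
      funext i; simp [evalL_nil, vec, toReal]
    rw [this]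
    exact Submodule.zero_mem _
  | cons t L ih =>
    rw [evalL_cons, vec_add, vec_zsmul, toReal_add, toReal_zsmul]
    refine Submodule.add_mem _ (Submodule.smul_mem _ _ (Submodule.subset_span ?_)) (ih ?_)
    · exact ⟨_, mem_orbit (hL t (by simp)) t.2.2, rfl⟩
    · intro u hu
      exact hL u (by simp [hu])

theorem span_eq_top : Submodule.span ℝ (toReal '' orbitSet F A₀) = ⊤ := by
  have key : ∀ i : Fin 4, ∀ j : Fin 5, (Pi.single (e (i, j)) (1 : ℝ) : Fin 20 → ℝ) ∈
      Submodule.span ℝ (toReal '' orbitSet F A₀) := by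
    intro i j
    obtain ⟨c, hc, hci, hcj⟩ := basisCerts_all i j
    obtain ⟨hN, hgood, heval⟩ := basisCerts_ok c hc
    have h1 := evalL_mem_span hgood
    rw [heval, vec_zsmul, toReal_zsmul] at h1
    have hN' : (c.2.2.1 : ℝ) ≠ 0 := by exact_mod_cast hN.ne'
    have h2 := Submodule.smul_mem _ ((c.2.2.1 : ℝ)⁻¹) h1
    rw [smul_smul, inv_mul_cancel₀ hN', one_smul] at h2
    have h3 : toReal (vec (Matrix.of fun i j => if i = c.1 ∧ j = c.2.1 then (1 : ℤ) else 0)) =
        Pi.single (e (i, j)) (1 : ℝ) := by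
      funext t
      obtain ⟨⟨i', j'⟩, rfl⟩ := e.surjective t
      simp only [toReal, vec, Equiv.symm_apply_apply, of_apply, Pi.single_apply,
        EmbeddingLike.apply_eq_iff_eq, Prod.mk.injEq, hci, hcj]
      split_ifs <;> simp
    rw [h3] at h2
    exact h2
  rw [eq_top_iff]
  intro x _
  rw [pi_eq_sum_univ' x]
  refine Submodule.sum_mem _ fun t _ => ?_
  obtain ⟨⟨i, j⟩, rfl⟩ := e.surjective t
  have h := Submodule.smul_mem _ (x (e (i, j))) (key i j)
  convert h using 2

theorem zero_mem_int : (0 : Fin 20 → ℝ) ∈ interior (hull F A₀) :=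
  zero_mem_interior_convexHull ⟨_, _, mem_orbitSet_of_mem (mem_A₀ 0), rfl⟩
    (orbitSet_symm A₀_symm) span_eq_top

theorem gauge_le_cost {L} (hL : GoodL L) :
    gauge (hull F A₀) (toReal (vec (evalL L))) ≤ costL L := by
  have hconv : Convex ℝ (hull F A₀) := convex_convexHull ℝ _
  have habs : Absorbent ℝ (hull F A₀) :=
    absorbent_nhds_zero (mem_interior_iff_mem_nhds.1 zero_mem_int)
  induction L with
  | nil =>
    have : toReal (vec (evalL [])) = 0 := by
      funext i; simp [evalL_nil, vec, toReal]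
    rw [this, gauge_zero]
    simp [costL]
  | cons t L ih =>
    rw [evalL_cons, vec_add, vec_zsmul, toReal_add, toReal_zsmul, costL_cons]
    have h1 : gauge (hull F A₀) (toReal (vec (t.2.1 * a t.2.2))) ≤ 1 :=
      gauge_le_one_of_mem (subset_convexHull ℝ _ ⟨_, mem_orbit (hL t (by simp)) t.2.2, rfl⟩)
    have h2 : gauge (hull F A₀) ((t.1 : ℝ) • toReal (vec (t.2.1 * a t.2.2))) ≤ |(t.1 : ℝ)| := by
      have h5 : gauge (hull F A₀) ((t.1 : ℝ) • toReal (vec (t.2.1 * a t.2.2))) =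
          |(t.1 : ℝ)| * gauge (hull F A₀) (toReal (vec (t.2.1 * a t.2.2))) := by
        rcases le_total 0 (t.1 : ℝ) with h0 | h0
        · rw [gauge_smul_of_nonneg h0, smul_eq_mul, abs_of_nonneg h0]
        · rw [← gauge_neg' A₀_symm, ← neg_smul, gauge_smul_of_nonneg (neg_nonneg.2 h0),
            smul_eq_mul, abs_of_nonpos h0]
      rw [h5]
      calc |(t.1 : ℝ)| * gauge (hull F A₀) (toReal (vec (t.2.1 * a t.2.2)))
          ≤ |(t.1 : ℝ)| * 1 := by gcongr
        _ = |(t.1 : ℝ)| := mul_one _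
    have h3 := ih (fun u hu => hL u (by simp [hu]))
    have h4 := gauge_add_le hconv habs ((t.1 : ℝ) • toReal (vec (t.2.1 * a t.2.2)))
      (toReal (vec (evalL L)))
    push_cast
    linarith

theorem gauge_pair {i j : Fin 4} (hij : i < j) {s : ℤ} (hs : s = 1 ∨ s = -1) :
    gauge (hull F A₀) (toReal (vec (a i)) + (s : ℝ) • toReal (vec (a j))) < 2 := by
  obtain ⟨c, hc, hci, hcj, hcs⟩ := pairCerts_all i j hij s (by simpa using hs)
  obtain ⟨hN, hgood, hcost, heval⟩ := pairCerts_ok c hc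
  have h1 := gauge_le_cost hgood
  rw [heval, hci, hcj, hcs, vec_zsmul, vec_add, vec_zsmul, toReal_zsmul, toReal_add,
    toReal_zsmul] at h1
  have hN' : (0 : ℝ) < (c.2.2.2.1 : ℝ) := by exact_mod_cast hN
  rw [gauge_smul_of_nonneg hN'.le, smul_eq_mul] at h1
  have h2 : (costL c.2.2.2.2 : ℝ) < 2 * (c.2.2.2.1 : ℝ) := by exact_mod_cast hcost
  by_contra hcon
  rw [not_lt] at hcon
  have h3 : (c.2.2.2.1 : ℝ) * 2 ≤ (c.2.2.2.1 : ℝ) *
      gauge (hull F A₀) (toReal (vec (a i)) + (s : ℝ) • toReal (vec (a j))) := by gcongr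
  linarith

theorem gauge_pair' {i j : Fin 4} (hij : i ≠ j) {s : ℤ} (hs : s = 1 ∨ s = -1) :
    gauge (hull F A₀) (toReal (vec (a i)) + (s : ℝ) • toReal (vec (a j))) < 2 := by
  rcases lt_or_gt_of_ne hij with h | h
  · exact gauge_pair h hs
  · have h1 := gauge_pair h hs
    rcases hs with rfl | rfl
    · rw [Int.cast_one, one_smul] at h1 ⊢
      rwa [add_comm]
    · rw [← gauge_neg' A₀_symm]
      have : -(toReal (vec (a i)) + ((-1 : ℤ) : ℝ) • toReal (vec (a j))) =
          toReal (vec (a j)) + ((-1 : ℤ) : ℝ) • toReal (vec (a i)) := by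
        push_cast
        module
      rwa [this]

theorem condS : CondS F := by
  refine ⟨A₀, A₀_symm, admissible_of_gauge A₀_finite ⟨_, mem_A₀ 0⟩ A₀_symm span_eq_top ?_⟩
  rintro x ⟨i, hx⟩ y ⟨j, hy⟩ hne hne'
  have hij : i ≠ j := by
    rintro rfl
    rcases hx with rfl | rfl <;> rcases hy with rfl | rfl
    · exact hne rfl
    · exact hne' rfl
    · exact hne' (neg_neg _).symm
    · exact hne rfl
  rcases hx with rfl | rfl <;> rcases hy with rfl | rfl
  · have h := gauge_pair' hij (s := 1) (Or.inl rfl)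
    rwa [Int.cast_one, one_smul] at h
  · have h := gauge_pair' hij (s := -1) (Or.inr rfl)
    rw [toReal_neg]
    convert h using 2
    push_cast
    module
  · have h := gauge_pair' hij (s := -1) (Or.inr rfl)
    rw [← gauge_neg' A₀_symm, toReal_neg]
    convert h using 2
    push_cast
    module
  · have h := gauge_pair' hij (s := 1) (Or.inl rfl)
    rw [← gauge_neg' A₀_symm, toReal_neg, toReal_neg]
    convert h using 2
    push_cast
    module

/-- No antipodal pair is admissible: the orbit of a `4 × 5` matrix `V` lies in the proper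
subspace `{X | X y = 0}`, where `y ≠ 0` is in the kernel of `V`. -/
theorem not_condB : ¬ CondB F := by
  rintro ⟨v, -, ⟨x, hx⟩, -⟩
  obtain ⟨V, rfl⟩ := vec_surjective v
  -- a nonzero vector in the kernel
  obtain ⟨y, hyne, hy⟩ : ∃ y : Fin 5 → ℝ, y ≠ 0 ∧ (V.map (Int.cast : ℤ → ℝ)) *ᵥ y = 0 := by
    have h1 : LinearMap.ker (Matrix.mulVecLin (V.map (Int.cast : ℤ → ℝ))) ≠ ⊥ := by
      apply LinearMap.ker_ne_bot_of_finrank_lt
      simp
    obtain ⟨y, hy, hyne⟩ := (Submodule.ne_bot_iff _).1 h1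
    exact ⟨y, hyne, by simpa using hy⟩
  obtain ⟨j₀, hj₀⟩ := Function.ne_iff.1 hyne
  -- the linear map `X ↦ X y`
  let T : (Fin 20 → ℝ) →ₗ[ℝ] ℝ :=
    { toFun := fun z => ∑ j : Fin 5, z (e (0, j)) * y j
      map_add' := by intro z w; simp [add_mul, Finset.sum_add_distrib]
      map_smul' := by intro c z; simp [Finset.mul_sum, mul_assoc] }
  have hsub : hull F {vec V, -vec V} ⊆ (LinearMap.ker T : Set (Fin 20 → ℝ)) := by
    apply convexHull_min _ (LinearMap.ker T).convex
    rintro _ ⟨_, ⟨g, hg, w, hw, rfl⟩, rfl⟩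
    obtain ⟨M, -, hM⟩ := mem_F.1 hg
    have hmain : toReal ((g : Matrix (Fin 20) (Fin 20) ℤ) *ᵥ vec V) ∈
        (LinearMap.ker T : Set (Fin 20 → ℝ)) := by
      rw [hM, R_mulVec, SetLike.mem_coe, LinearMap.mem_ker]
      show ∑ j : Fin 5, toReal (vec (M * V)) (e (0, j)) * y j = 0
      have h2 : ∀ j : Fin 5, toReal (vec (M * V)) (e (0, j)) =
          ∑ k : Fin 4, (M 0 k : ℝ) * (V k j : ℝ) := by
        intro j
        simp [toReal, vec, Matrix.mul_apply]
      simp only [h2, Finset.sum_mul]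
      rw [Finset.sum_comm]
      apply Finset.sum_eq_zero
      intro k _
      have h3 := congrFun hy k
      simp only [mulVec, dotProduct, map_apply, Pi.zero_apply] at h3
      rw [← mul_zero (M 0 k : ℝ), ← h3, Finset.mul_sum]
      exact Finset.sum_congr rfl fun j _ => by ring
    rcases hw with rfl | hw
    · exact hmain
    · rw [Set.mem_singleton_iff] at hw
      rw [hw, mulVec_neg, toReal_neg]
      exact (LinearMap.ker T).neg_mem hmain
  have htop : LinearMap.ker T = ⊤ :=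
    Submodule.eq_top_of_nonempty_interior' _ ⟨x, interior_mono hsub hx⟩
  have h4 : (Pi.single (e (0, j₀)) (1 : ℝ) : Fin 20 → ℝ) ∈ LinearMap.ker T := by
    rw [htop]; trivial
  rw [LinearMap.mem_ker] at h4
  have h5 : T (Pi.single (e (0, j₀)) (1 : ℝ)) = y j₀ := by
    show ∑ j : Fin 5, (Pi.single (e (0, j₀)) (1 : ℝ) : Fin 20 → ℝ) (e (0, j)) * y j = y j₀
    rw [Finset.sum_eq_single j₀]
    · simp
    · intro j _ hj
      rw [Pi.single_eq_of_ne]
      · simp
      · intro h
        exact hj (by simpa using h)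
    · simp
  rw [h5] at h4
  exact hj₀ h4

end Pool.Agent.MP_123198_al
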